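import Pool.Agent.Run7.h127.TF.Cons

/-!
# Examples, and the conclusion of Q1
-/

set_option autoImplicit false
set_option linter.unusedSectionVars false

namespace Pool.Agent.Run7.h127.TF

open Finset
open scoped Pointwise

/-- The growth of the exponent with `1 / ε`: explicit sets. -/
theorem sharp_sets (k N : ℕ) : ∃ A : Finset (Fin k → ℤ),
    A.card = k * N ^ (k - 1) ∧ (A + A).card ≤ (2 * N + 1) ^ k ∧
      ∀ i, A.card ≤ k * (A.filter fun a => a i = 0).card := by
  classical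
  obtain ⟨P, hP⟩ : ∃ P : Fin k → Finset (Fin k → ℤ), ∀ i, P i =
    Fintype.piFinset (fun j => if j = i then {0} else Icc 1 (N : ℤ)) := ⟨_, fun _ => rfl⟩
  have hcard : ∀ i, (P i).card = N ^ (k - 1) := by
    intro i
    rw [hP, Fintype.card_piFinset]
    have h1 : ∀ j ∈ (univ : Finset (Fin k)), (if j = i then ({0} : Finset ℤ) else
        Icc 1 (N : ℤ)).card = if j = i then 1 else N := by
      intro j _
      split_ifs
      · simp
      · simp
    rw [prod_congr rfl h1, prod_ite, prod_const_one, one_mul, prod_const]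
    congr 1
    have h2 : (univ : Finset (Fin k)).filter (fun j => ¬ j = i) = univ.erase i := by
      ext j
      simp
    rw [h2, card_erase_of_mem (mem_univ _), card_univ, Fintype.card_fin]
  have hmem : ∀ i, ∀ x ∈ P i, x i = 0 ∧ (∀ j, j ≠ i → x j ≠ 0) ∧ ∀ j, x j ∈ Icc 0 (N : ℤ) := by
    intro i x hx
    rw [hP, Fintype.mem_piFinset] at hx
    refine ⟨?_, ?_, ?_⟩
    · have := hx i
      simpa using this
    · intro j hj
      have := hx j
      rw [if_neg hj, mem_Icc] at this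
      omega
    · intro j
      have := hx j
      by_cases hj : j = i
      · rw [if_pos hj, mem_singleton] at this
        rw [this, mem_Icc]
        omega
      · rw [if_neg hj, mem_Icc] at this
        rw [mem_Icc]
        omega
  obtain ⟨A, hA⟩ : ∃ A, A = univ.biUnion P := ⟨_, rfl⟩
  have hAcard : A.card = k * N ^ (k - 1) := by
    rw [hA, card_biUnion]
    · rw [sum_congr rfl fun i _ => hcard i, sum_const, card_univ, Fintype.card_fin, smul_eq_mul]
    · intro i _ j _ hij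
      rw [Function.onFun, disjoint_left]
      intro x hx hx'
      exact (hmem i x hx).2.1 j hij.symm (hmem j x hx').1
  refine ⟨A, hAcard, ?_, ?_⟩
  · have h1 : A + A ⊆ Fintype.piFinset (fun _ : Fin k => Icc 0 (2 * N : ℤ)) := by
      intro x hx
      obtain ⟨y, hy, z, hz, rfl⟩ := mem_add.1 hx
      rw [hA, mem_biUnion] at hy hz
      obtain ⟨i, _, hy⟩ := hy
      obtain ⟨i', _, hz⟩ := hz
      rw [Fintype.mem_piFinset]
      intro j
      have h2 := (hmem i y hy).2.2 j
      have h3 := (hmem i' z hz).2.2 j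
      rw [mem_Icc] at h2 h3 ⊢
      rw [Pi.add_apply]
      omega
    refine (card_le_card h1).trans (le_of_eq ?_)
    rw [Fintype.card_piFinset_const]
    congr 1
    simp
    omega
  · intro i
    rw [hAcard, ← hcard i]
    refine Nat.mul_le_mul_left _ (card_le_card fun x hx => ?_)
    rw [mem_filter]
    exact ⟨by rw [hA]; exact mem_biUnion.2 ⟨i, mem_univ _, hx⟩, (hmem i x hx).1⟩

/-- The growth of the exponent with `1 / ε`. -/
theorem sharp_eps (k : ℕ) (c : ℝ) (hc0 : 0 ≤ c) (hc : c < k - 1) : ∃ A : Finset (Fin k → ℤ),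
    A.Nonempty ∧ (∀ i, Popular 1 (1 / k) A (fun a => a i)) ∧
      (((A + A).card : ℝ) / A.card) ^ c < A.card := by
  classical
  have hk1 : (1 : ℝ) < k := by linarith
  have hk : 1 ≤ k := by
    have : 1 < k := by exact_mod_cast hk1
    omega
  have hk0 : (0 : ℝ) < k := by linarith
  -- the choice of `N`
  obtain ⟨N, hN1, hN⟩ : ∃ N : ℕ, 1 ≤ N ∧ (3 : ℝ) ^ (k * c) < (N : ℝ) ^ ((k : ℝ) - 1 - c) := by
    have h1 := (tendsto_rpow_atTop (show 0 < (k : ℝ) - 1 - c by linarith)).comp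
      tendsto_natCast_atTop_atTop
    obtain ⟨N, hN⟩ := ((h1.eventually_gt_atTop ((3 : ℝ) ^ (k * c))).and
      (Filter.eventually_ge_atTop 1)).exists
    exact ⟨N, hN.2, hN.1⟩
  have hN0 : (0 : ℝ) < N := by exact_mod_cast hN1
  obtain ⟨A, hA, hAA, hpop⟩ := sharp_sets k N
  have hkk : k - 1 + 1 = k := by omega
  have hAr : (A.card : ℝ) = k * (N : ℝ) ^ (k - 1) := by
    rw [hA]
    push_cast
    rfl
  have hA0 : (0 : ℝ) < A.card := by
    rw [hAr]
    positivity
  refine ⟨A, card_pos.1 (by exact_mod_cast hA0), ?_, ?_⟩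
  · intro i
    refine ⟨{0}, by simp, ?_⟩
    rw [ncard_filter]
    simp only [mem_singleton]
    have h1 : (A.card : ℝ) ≤ k * (A.filter fun a => a i = 0).card := by exact_mod_cast hpop i
    rw [one_div, inv_mul_le_iff₀ hk0]
    exact h1
  · have h1 : ((A + A).card : ℝ) ≤ (3 * N) ^ k := by
      have h2 : ((A + A).card : ℝ) ≤ (2 * N + 1) ^ k := by exact_mod_cast hAA
      refine h2.trans (pow_le_pow_left₀ (by positivity) ?_ k)
      have : (1 : ℝ) ≤ N := by exact_mod_cast hN1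
      linarith
    have h2 : ((A + A).card : ℝ) / A.card ≤ 3 ^ k * N := by
      rw [div_le_iff₀ hA0, hAr]
      refine h1.trans ?_
      rw [mul_pow]
      have h3 : (N : ℝ) ^ k = N * N ^ (k - 1) := by
        rw [← pow_succ', hkk]
      rw [h3]
      have h4 : (0 : ℝ) ≤ 3 ^ k * (N * N ^ (k - 1)) := by positivity
      nlinarith
    have h3 : (((A + A).card : ℝ) / A.card) ^ c ≤ (3 ^ k * N) ^ c :=
      Real.rpow_le_rpow (by positivity) h2 hc0
    have h4 : ((3 : ℝ) ^ k * N) ^ c = 3 ^ (k * c) * (N : ℝ) ^ c := by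
      rw [Real.mul_rpow (by positivity) hN0.le, ← Real.rpow_natCast 3 k, ← Real.rpow_mul (by norm_num)]
    have h5 : (N : ℝ) ^ (k - 1) = (N : ℝ) ^ ((k : ℝ) - 1 - c) * (N : ℝ) ^ c := by
      rw [← Real.rpow_add hN0, ← Real.rpow_natCast]
      congr 1
      rw [Nat.cast_sub hk]
      push_cast
      ring
    have hNc : 0 < (N : ℝ) ^ c := Real.rpow_pos_of_pos hN0 c
    calc (((A + A).card : ℝ) / A.card) ^ c ≤ 3 ^ (k * c) * (N : ℝ) ^ c := h3.trans h4.le
      _ < (N : ℝ) ^ ((k : ℝ) - 1 - c) * (N : ℝ) ^ c := mul_lt_mul_of_pos_right hN hNc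
      _ = 1 * (N : ℝ) ^ (k - 1) := by rw [← h5, one_mul]
      _ ≤ k * (N : ℝ) ^ (k - 1) := mul_le_mul_of_nonneg_right hk1.le (by positivity)
      _ = A.card := hAr.symm

/-- The growth of the exponent with `log m`. -/
theorem sharp_m (m k : ℕ) : ∃ A : Finset (Fin k → ℤ),
    A.card = m ^ k ∧ (A + A).card ≤ 2 ^ k * A.card ∧ ∀ i, Popular m 1 A (fun a => a i) := by
  classical
  refine ⟨Fintype.piFinset (fun _ => Ico 0 (m : ℤ)), ?_, ?_, ?_⟩
  · rw [Fintype.card_piFinset_const]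
    simp
  · have h1 : Fintype.piFinset (fun _ : Fin k => Ico 0 (m : ℤ)) +
        Fintype.piFinset (fun _ : Fin k => Ico 0 (m : ℤ)) ⊆
        Fintype.piFinset (fun _ : Fin k => Ico 0 (2 * m : ℤ)) := by
      intro x hx
      obtain ⟨y, hy, z, hz, rfl⟩ := mem_add.1 hx
      rw [Fintype.mem_piFinset] at hy hz ⊢
      intro j
      have h2 := hy j
      have h3 := hz j
      rw [mem_Ico] at h2 h3 ⊢
      rw [Pi.add_apply]
      omega
    refine (card_le_card h1).trans (le_of_eq ?_)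
    rw [Fintype.card_piFinset_const, Fintype.card_piFinset_const, ← mul_pow]
    congr 1
    simp
    omega
  · intro i
    refine ⟨Ico 0 (m : ℤ), by simp, ?_⟩
    rw [ncard_filter, one_mul]
    refine Nat.cast_le.2 (card_le_card fun x hx => mem_filter.2 ⟨hx, ?_⟩)
    rw [Fintype.mem_piFinset] at hx
    exact hx i

/-- the conclusion of Q1 for `A`, with the constant `C` -/
def Q1At (C K : ℝ) (A : Finset ℤ) : Prop :=
  ∃ (d : ℕ) (B : Set (Fin d → ℝ)) (v : Fin d → ℤ) (T : Finset ℤ),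
    (d : ℝ) ≤ C * (1 + Real.log K) ∧
    Convex ℝ B ∧ IsCompact B ∧ (interior B).Nonempty ∧ (∀ x ∈ B, -x ∈ B) ∧
    ({x : Fin d → ℤ | (fun i => (x i : ℝ)) ∈ B}.ncard ≤ A.card) ∧
    ((T.card : ℝ) ≤ C * K ^ C) ∧
    ∀ a ∈ A, ∃ t ∈ T, ∃ x : Fin d → ℤ,
      (fun i => (x i : ℝ)) ∈ B ∧ a = t + ∑ i, v i * x i

/-- **Q1 for the sets which are separated by popular Freiman homomorphisms.** -/
theorem q1At {ι : Type*} {V : ι → Type*} [∀ i, AddCommGroup (V i)] (hV : ∀ i, TorsionFree (V i))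
    {A : Finset ℤ} (hA : A.Nonempty) {K : ℝ} (hK : ((A + A).card : ℝ) ≤ K * A.card)
    (f : ∀ i, ℤ → V i) (hfr : ∀ i, Freiman A (f i)) {m : ℕ} (hm : 1 ≤ m) {ε : ℝ} (hε : 0 < ε)
    (hε1 : ε ≤ 1) (hf : ∀ i, Popular m ε A (f i))
    (hsep : ∀ a ∈ A, ∀ b ∈ A, (∀ i, f i a = f i b) → a = b) :
    Q1At (10 ^ 7 * Real.log (2 * m) / ε) K A := by
  have hN : (0 : ℝ) < A.card := by exact_mod_cast card_pos.2 hA
  have hAA : (A.card : ℝ) ≤ (A + A).card := by
    exact_mod_cast card_le_card_add_right hA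
  have hK1 : 1 ≤ K := by nlinarith
  have hL := log_two_m hm
  obtain ⟨C, hC⟩ : ∃ C, C = 10 ^ 7 * Real.log (2 * m) / ε := ⟨_, rfl⟩
  have hC1 : 1 ≤ C := by
    rw [hC, le_div_iff₀ hε]
    linarith
  rw [← hC]
  have h1 := (growth_self hV hA f hfr hm hε hf hsep).1
  have h2 : ε / (10 ^ 7 * Real.log (2 * m)) = 1 / C := by
    rw [hC]
    field_simp
  rw [h2] at h1
  have h3 : (A.card : ℝ) ≤ K ^ C := by
    have h4 := Real.log_le_log (by positivity) (h1.trans hK)
    rw [Real.log_rpow hN, Real.log_mul (by linarith) hN.ne'] at h4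
    rw [← Real.log_le_log_iff hN (by positivity), Real.log_rpow (by linarith)]
    have h5 : 1 / C * Real.log A.card ≤ Real.log K := by linarith
    rw [div_mul_eq_mul_div, one_mul, div_le_iff₀ (by linarith)] at h5
    linarith
  refine ⟨0, Set.univ, fun _ => 0, A, ?_, convex_univ, isCompact_univ, ?_, fun _ _ => Set.mem_univ _,
    ?_, ?_, ?_⟩
  · have := Real.log_nonneg hK1
    push_cast
    positivity
  · rw [interior_univ]
    exact Set.univ_nonempty
  · have h4 : {x : Fin 0 → ℤ | (fun i => (x i : ℝ)) ∈ (Set.univ : Set (Fin 0 → ℝ))}.ncard ≤ 1 :=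
      Set.ncard_le_one_of_subsingleton _
    exact h4.trans (card_pos.2 hA)
  · refine h3.trans ?_
    have : 0 ≤ K ^ C := by positivity
    nlinarith
  · intro a ha
    exact ⟨a, ha, 0, Set.mem_univ _, by simp⟩

end Pool.Agent.Run7.h127.TF
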