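import Pool.Agent.Run7.h127.PS.Robust

/-!
# Sums with a popular value in groups without finite subgroups
-/

set_option autoImplicit false
set_option linter.unusedSectionVars false

namespace Pool.Agent.Run7.h127.TF

open Finset H112
open Pool.Agent.Run7.h127.FV (cell_atoms)
open Pool.Agent.Run7.h127.PS (struct_two large)
open Pool.Agent.Y359.PE (h fc cl mem_cl fc_posR fc_pos fc_le fc_congr h_nonneg cell_left cell_right
  cell_main nz h_congr h_const h_le_log submod chain avg_cl cl_prod mk mk_eq_iff h_mk_insert mk_add)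
open scoped Classical

variable {α β γ δ : Type*} {V M : Type*} [AddCommGroup V] [AddCommGroup M]

lemma log_two_m {m : ℕ} (hm : 1 ≤ m) : 69 / 100 ≤ Real.log (2 * m) := by
  have hm1 : (1 : ℝ) ≤ m := by exact_mod_cast hm
  have h1 : Real.log 2 ≤ Real.log (2 * m) := Real.log_le_log (by norm_num) (by linarith)
  have := Real.log_two_gt_d9
  norm_num at this h1 ⊢
  linarith

/-- **The basic inequality.** If the group has no finite subgroups and `x` has popular values. -/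
theorem pair (hV : ∀ K : AddSubgroup V, Finite K → K = ⊥) {B : Finset β} {A : Finset α}
    (hB : B.Nonempty) (hA : A.Nonempty) (y : β → V) (x : α → V) (B₀ : Finset V) {m : ℕ}
    (hm : 1 ≤ m) (hB₀ : B₀.card ≤ m) :
    ((A.filter fun a => x a ∈ B₀).card : ℝ) / A.card * (h B y + h A x) ≤
      10 ^ 7 * Real.log (2 * m) *
        (h (B ×ˢ A) (fun s => y s.1 + x s.2) - (h B y + h A x) / 2) := by
  have hN : (0 : ℝ) < A.card := by exact_mod_cast card_pos.2 hA
  obtain ⟨L, hL⟩ : ∃ L : ℝ, Real.log (2 * m) = L := ⟨_, rfl⟩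
  have hL69 : 69 / 100 ≤ L := hL ▸ log_two_m hm
  obtain ⟨X, hX⟩ : ∃ X, X = h A x := ⟨_, rfl⟩
  obtain ⟨Y, hY⟩ : ∃ Y, Y = h B y := ⟨_, rfl⟩
  obtain ⟨S, hS⟩ : ∃ S, S = h (B ×ˢ A) (fun s => y s.1 + x s.2) := ⟨_, rfl⟩
  obtain ⟨p, hp⟩ : ∃ p, p = ((A.filter fun a => x a ∈ B₀).card : ℝ) / A.card := ⟨_, rfl⟩
  have hp0 : 0 ≤ p := by rw [hp]; positivity
  have hp1 : p ≤ 1 := by
    rw [hp, div_le_one hN]
    exact_mod_cast card_filter_le _ _
  have hX0 : 0 ≤ X := hX ▸ h_nonneg _ _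
  have hY0 : 0 ≤ Y := hY ▸ h_nonneg _ _
  have hlow1 : Y ≤ S := by
    rw [hS, hY]
    exact cell_left B A hA y x
  have hlow2 : X ≤ S := by
    rw [hS, hX]
    exact cell_right B A hB y x
  obtain ⟨D, hD⟩ : ∃ D, D = S - (Y + X) / 2 := ⟨_, rfl⟩
  by_cases hcase : 1 / 3200000 ≤ D
  · have h1 := large B A hB hA y x B₀ hm hB₀
    rw [← hS, ← hX, ← hY, ← hp, hL] at h1
    rw [← hS, ← hX, ← hY, ← hp, hL, ← hD]
    have h2 : p * Y ≤ 2 * D + L := by linarith
    have h3 : X ≤ Y + 2 * D := by linarith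
    have h4 : p * (Y + X) ≤ p * (2 * Y + 2 * D) := mul_le_mul_of_nonneg_left (by linarith) hp0
    have h5 : p * D ≤ 1 * D := mul_le_mul_of_nonneg_right hp1 (by linarith)
    have h6 : L * (1 / 3200000) ≤ L * D := mul_le_mul_of_nonneg_left hcase (by linarith)
    have h7 : 69 / 100 * D ≤ L * D := mul_le_mul_of_nonneg_right hL69 (by linarith)
    nlinarith
  · push Not at hcase
    obtain ⟨K, hKfin, -, hKb⟩ := struct_two hB hA y x (t := 1 / 10) (by norm_num) le_rfl
      (by rw [← hS, ← hX, ← hY, ← hD]; norm_num at hcase ⊢; linarith)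
    obtain ⟨⟨w, hw⟩, ⟨w', hw'⟩⟩ := hKb (hV K hKfin)
    have h1 := cell_atoms B A hB hA y x w w' hw hw'
    rw [← hX, ← hY, ← hS] at h1
    rw [← hS, ← hX, ← hY, ← hp, hL, ← hD]
    have hD0 : (Y + X) / 6 ≤ D := by linarith
    have h2 : p * (Y + X) ≤ 1 * (Y + X) := mul_le_mul_of_nonneg_right hp1 (by linarith)
    have h3 : 69 / 100 * D ≤ L * D := mul_le_mul_of_nonneg_right hL69 (by linarith)
    nlinarith

/-- the number of the elements with a popular value, as a sum over the classes -/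
lemma sum_pop (A : Finset α) (F : α → β) (P : α → Prop) [DecidablePred P] :
    ∑ u ∈ A, (((cl A F u).filter P).card : ℝ) / fc A F u = (A.filter P).card := by
  have h1 := avg_cl A F (fun a => if P a then (1 : ℝ) else 0)
  have h2 : ∀ T : Finset α, ∑ y ∈ T, (if P y then (1 : ℝ) else 0) =
      (T.filter P).card := by
    intro T
    rw [← sum_filter, sum_const, nsmul_eq_mul, mul_one]
  simp only [h2] at h1
  exact h1

/-- **The step.** -/
theorem step (hV : ∀ K : AddSubgroup V, Finite K → K = ⊥) {B : Finset β} {A : Finset α}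
    (hB : B.Nonempty) (hA : A.Nonempty) (E : β → M) (F : α → M) (y : β → V) (x : α → V)
    (B₀ : Finset V) {m : ℕ} (hm : 1 ≤ m) (hB₀ : B₀.card ≤ m) {ε : ℝ}
    (hε : ε * A.card ≤ (A.filter fun a => x a ∈ B₀).card) :
    ε * (h B (fun u => (E u, y u)) - h B E) ≤ 10 ^ 7 * Real.log (2 * m) *
      (h (B ×ˢ A) (fun s => (E s.1 + F s.2, y s.1 + x s.2)) - h (B ×ˢ A) (fun s => E s.1 + F s.2) -
        ((h B (fun u => (E u, y u)) - h B E) + (h A (fun u => (F u, x u)) - h A F)) / 2) := by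
  obtain ⟨N, hNd⟩ : ∃ N : ℝ, (A.card : ℝ) = N := ⟨_, rfl⟩
  obtain ⟨N', hNd'⟩ : ∃ N' : ℝ, (B.card : ℝ) = N' := ⟨_, rfl⟩
  have hN : (0 : ℝ) < N := by
    rw [← hNd]
    exact_mod_cast card_pos.2 hA
  have hN' : (0 : ℝ) < N' := by
    rw [← hNd']
    exact_mod_cast card_pos.2 hB
  obtain ⟨L, hL⟩ : ∃ L : ℝ, Real.log (2 * m) = L := ⟨_, rfl⟩
  have hL69 : 69 / 100 ≤ L := hL ▸ log_two_m hm
  obtain ⟨S, hS⟩ : ∃ S, ∑ u ∈ A, h (cl A F u) x = S := ⟨_, rfl⟩
  obtain ⟨S', hS'⟩ : ∃ S', ∑ v ∈ B, h (cl B E v) y = S' := ⟨_, rfl⟩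
  have hS'0 : 0 ≤ S' := hS' ▸ sum_nonneg fun u _ => h_nonneg _ _
  have ha : h A (fun u => (F u, x u)) - h A F = S / N := by
    rw [chain A F x, ← hS, ← hNd]
  have hb : h B (fun u => (E u, y u)) - h B E = S' / N' := by
    rw [chain B E y, ← hS', ← hNd']
  obtain ⟨W, hW⟩ : ∃ W, ∑ v ∈ B, ∑ u ∈ A,
    h (cl B E v ×ˢ cl A F u) (fun s => y s.1 + x s.2) = W := ⟨_, rfl⟩
  obtain ⟨D, hDd⟩ : ∃ D, h (B ×ˢ A) (fun s => (E s.1 + F s.2, y s.1 + x s.2)) -
    h (B ×ˢ A) (fun s => E s.1 + F s.2) = D := ⟨_, rfl⟩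
  have hD : W / (N' * N) ≤ D := by
    have h1 := submod (B ×ˢ A) (fun s => E s.1 + F s.2) (fun s => (E s.1, F s.2))
      (fun s => y s.1 + x s.2) (by
        intro s _ t _ hst
        rw [Prod.mk.injEq] at hst
        show E s.1 + F s.2 = E t.1 + F t.2
        rw [hst.1, hst.2])
    rw [← hDd]
    refine le_trans (le_of_eq ?_) h1
    rw [chain (B ×ˢ A) (fun s => (E s.1, F s.2)) (fun s => y s.1 + x s.2), card_product,
      sum_product, ← hW, ← hNd, ← hNd']
    push_cast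
    congr 1
    refine sum_congr rfl fun u _ => sum_congr rfl fun v _ => ?_
    rw [cl_prod]
  rw [ha, hb, hDd, hL]
  -- the sum of the basic inequalities
  have key : ∑ v ∈ B, ∑ u ∈ A, (((cl A F u).filter fun a => x a ∈ B₀).card : ℝ) / fc A F u *
      h (cl B E v) y ≤ 10 ^ 7 * L * (W - (N * S' + N' * S) / 2) := by
    have h1 : ∀ v ∈ B, ∀ u ∈ A, (((cl A F u).filter fun a => x a ∈ B₀).card : ℝ) / fc A F u *
        h (cl B E v) y ≤ 10 ^ 7 * L * (h (cl B E v ×ˢ cl A F u) (fun s => y s.1 + x s.2) -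
          (h (cl B E v) y + h (cl A F u) x) / 2) := by
      intro v hv u hu
      have h2 := pair hV (B := cl B E v) (A := cl A F u) ⟨v, mem_cl.2 ⟨hv, rfl⟩⟩
        ⟨u, mem_cl.2 ⟨hu, rfl⟩⟩ y x B₀ hm hB₀
      rw [hL] at h2
      refine le_trans ?_ h2
      have h3 : 0 ≤ (((cl A F u).filter fun a => x a ∈ B₀).card : ℝ) / fc A F u := by positivity
      refine mul_le_mul_of_nonneg_left ?_ h3
      have := h_nonneg (cl A F u) x
      linarith
    refine (sum_le_sum fun v hv => sum_le_sum fun u hu => h1 v hv u hu).trans (le_of_eq ?_)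
    have h4 : ∀ v ∈ B, ∑ u ∈ A, 10 ^ 7 * L * (h (cl B E v ×ˢ cl A F u)
        (fun s => y s.1 + x s.2) - (h (cl B E v) y + h (cl A F u) x) / 2) =
        10 ^ 7 * L * (∑ u ∈ A, h (cl B E v ×ˢ cl A F u) (fun s => y s.1 + x s.2) -
          (N * h (cl B E v) y + S) / 2) := by
      intro v _
      rw [← mul_sum, sum_sub_distrib, ← sum_div, sum_add_distrib, sum_const, nsmul_eq_mul, hS, hNd]
    rw [sum_congr rfl h4, ← mul_sum, sum_sub_distrib, hW, ← sum_div, sum_add_distrib, sum_const,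
      nsmul_eq_mul, ← mul_sum, hS', hNd']
  have key2 : ε * N * S' ≤ 10 ^ 7 * L * (W - (N * S' + N' * S) / 2) := by
    refine le_trans ?_ key
    rw [sum_comm]
    have h1 : ∀ u ∈ A, ∑ v ∈ B, (((cl A F u).filter fun a => x a ∈ B₀).card : ℝ) / fc A F u *
        h (cl B E v) y = (((cl A F u).filter fun a => x a ∈ B₀).card : ℝ) / fc A F u * S' := by
      intro u _
      rw [← mul_sum, hS']
    rw [sum_congr rfl h1, ← sum_mul, sum_pop A F (fun a => x a ∈ B₀)]
    refine mul_le_mul_of_nonneg_right ?_ hS'0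
    rw [← hNd]
    exact hε
  have h1 : W / (N' * N) - (S' / N' + S / N) / 2 = (W - (N * S' + N' * S) / 2) / (N' * N) := by
    field_simp
  have h2 : ε * (S' / N') ≤ 10 ^ 7 * L * (W / (N' * N) - (S' / N' + S / N) / 2) := by
    have h3 : ε * (S' / N') = ε * N * S' / (N' * N) := by
      field_simp
    rw [h1, h3, ← mul_div_assoc]
    exact div_le_div_of_nonneg_right key2 (by positivity)
  refine h2.trans (mul_le_mul_of_nonneg_left (by linarith) (by positivity))

end Pool.Agent.Run7.h127.TF
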