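import Pool.Agent.Run7.h127.TF.Main

/-!
# Consequences: growth of sums, differences and products
-/

set_option autoImplicit false
set_option linter.unusedSectionVars false

namespace Pool.Agent.Run7.h127.TF

open Finset
open scoped Pointwise

universe u v

/-- the group has no elements of finite order, except `0` -/
def TorsionFree (V : Type*) [AddCommGroup V] : Prop := ∀ (n : ℕ) (x : V), n ≠ 0 → n • x = 0 → x = 0

/-- a Freiman homomorphism (of order 2) on `A` -/
def Freiman {Γ V : Type*} [AddCommGroup Γ] [AddCommGroup V] (A : Finset Γ) (f : Γ → V) : Prop :=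
  ∀ a ∈ A, ∀ b ∈ A, ∀ c ∈ A, ∀ d ∈ A, a + b = c + d → f a + f b = f c + f d

/-- `f` takes some `m` values on at least `ε |A|` elements of `A` -/
def Popular {Γ V : Type*} (m : ℕ) (ε : ℝ) (A : Finset Γ) (f : Γ → V) : Prop :=
  ∃ R : Finset V, R.card ≤ m ∧ ε * A.card ≤ {a | a ∈ A ∧ f a ∈ R}.ncard

lemma TorsionFree.bot {V : Type*} [AddCommGroup V] (hV : TorsionFree V) (K : AddSubgroup V)
    (hK : Finite K) : K = ⊥ := by
  rw [eq_bot_iff]
  intro x hx
  have h1 : Nat.card K • (⟨x, hx⟩ : K) = 0 := card_nsmul_eq_zero'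
  have h2 : Nat.card K • x = 0 := congrArg Subtype.val h1
  exact AddSubgroup.mem_bot.2 (hV _ x (Nat.card_pos (α := K)).ne' h2)

lemma ncard_filter {Γ V : Type*} (A : Finset Γ) (f : Γ → V) (R : Finset V) [DecidableEq V] :
    {a | a ∈ A ∧ f a ∈ R}.ncard = (A.filter fun a => f a ∈ R).card := by
  rw [← Set.ncard_coe_finset]
  congr 1
  ext a
  simp

open Classical in
lemma Popular.filter {Γ V : Type*} {m : ℕ} {ε : ℝ} {A : Finset Γ} {f : Γ → V}
    (h : Popular m ε A f) : ∃ R : Finset V, R.card ≤ m ∧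
      ε * A.card ≤ (A.filter fun a => f a ∈ R).card := by
  obtain ⟨R, h1, h2⟩ := h
  refine ⟨R, h1, ?_⟩
  rw [ncard_filter] at h2
  exact h2

/-- an index for all popular Freiman homomorphisms -/
structure Idx {Γ : Type u} [AddCommGroup Γ] (m : ℕ) (ε : ℝ) (A : Finset Γ) where
  V : Type v
  inst : AddCommGroup V
  tf : TorsionFree V
  g : Γ → V
  fr : Freiman A g
  pop : Popular m ε A g

/-- **Popular values of Freiman homomorphisms.** -/
theorem popular {Γ : Type u} [AddCommGroup Γ] [d : DecidableEq Γ] {A : Finset Γ} (hA : A.Nonempty)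
    {K : ℝ} (hK : ((A + A).card : ℝ) ≤ K * A.card) {m : ℕ} (hm : 1 ≤ m) {ε : ℝ} (hε : 0 < ε) :
    ∃ A' ⊆ A, A'.Nonempty ∧
      (A.card : ℝ) ≤ K ^ (2 * 10 ^ 7 * Real.log (2 * m) / ε) * A'.card ∧
      ∀ (V : Type v) [AddCommGroup V] (g : Γ → V), TorsionFree V → Freiman A g →
        (Popular m ε A g ∨ Popular m ε A' g) → ∀ a ∈ A', ∀ b ∈ A', g a = g b := by
  classical
  have hd : d = (fun a b => Classical.propDecidable (a = b)) := Subsingleton.elim _ _
  subst hd
  let _ : ∀ i : Idx.{u, v} m ε A, AddCommGroup i.V := fun i => i.inst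
  obtain ⟨A', h1, h2, h3, h4, h5⟩ := main.{v} (ι := Idx.{u, v} m ε A) (V := fun i => i.V)
    (fun i => i.tf.bot) hA hK hm hε (fun i => i.g) (fun i => i.fr) (fun i => i.pop.filter)
  refine ⟨A', h1, h2, h3, ?_⟩
  intro V _ g hV hg hpop
  rcases hpop with hp | hp
  · exact h4 ⟨V, inferInstance, hV, g, hg, hp⟩
  · exact h5 V hV.bot g hg hp.filter

/-- **Two sets.** -/
theorem two_sets {Γ : Type*} [AddCommGroup Γ] [d : DecidableEq Γ] {ι : Type*} {V : ι → Type*}
    [∀ i, AddCommGroup (V i)] (hV : ∀ i, TorsionFree (V i)) {B A : Finset Γ} (hB : B.Nonempty)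
    (hA : A.Nonempty) {K : ℝ} (hK : ((B + A).card : ℝ) ≤ K * Real.sqrt (B.card * A.card))
    (e f : ∀ i, Γ → V i)
    (hef : ∀ i, ∀ b ∈ B, ∀ a ∈ A, ∀ b' ∈ B, ∀ a' ∈ A, b + a = b' + a' →
      e i b + f i a = e i b' + f i a') {m : ℕ} (hm : 1 ≤ m) {ε : ℝ} (hε : 0 < ε)
    (hf : ∀ i, Popular m ε A (f i)) :
    ∃ B' ⊆ B, B'.Nonempty ∧ (B.card : ℝ) ≤ K ^ (10 ^ 7 * Real.log (2 * m) / ε) * B'.card ∧
      ∀ i, ∀ a ∈ B', ∀ b ∈ B', e i a = e i b := by
  classical
  have hd : d = (fun a b => Classical.propDecidable (a = b)) := Subsingleton.elim _ _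
  subst hd
  have hN : (0 : ℝ) < A.card := by exact_mod_cast card_pos.2 hA
  have hM : (0 : ℝ) < B.card := by exact_mod_cast card_pos.2 hB
  have hsq : 0 < Real.sqrt (B.card * A.card) := Real.sqrt_pos.2 (by positivity)
  have hBA : (0 : ℝ) < (B + A).card := by exact_mod_cast card_pos.2 (hB.add hA)
  have hK0 : 0 < K := by
    by_contra hcon
    push Not at hcon
    have := mul_nonpos_of_nonpos_of_nonneg hcon hsq.le
    linarith
  obtain ⟨x, hx, hx2⟩ := growth (fun i => (hV i).bot) hB hA e f hef hm hε (fun i => (hf i).filter)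
  refine ⟨B.filter fun b => ∀ i, e i b = e i x, filter_subset _ _,
    ⟨x, mem_filter.2 ⟨hx, fun _ => rfl⟩⟩, ?_, ?_⟩
  · have hB' : (0 : ℝ) < (B.filter fun b => ∀ i, e i b = e i x).card := by
      exact_mod_cast card_pos.2 ⟨x, mem_filter.2 ⟨hx, fun _ => rfl⟩⟩
    have hL := log_two_m hm
    have h1 : Real.log (B + A).card - (Real.log B.card + Real.log A.card) / 2 ≤ Real.log K := by
      have h2 := Real.log_le_log hBA hK
      rw [Real.log_mul hK0.ne' hsq.ne', Real.log_sqrt (by positivity),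
        Real.log_mul hM.ne' hN.ne'] at h2
      linarith
    have h2 : ε * (Real.log B.card - Real.log (B.filter fun b => ∀ i, e i b = e i x).card) ≤
        10 ^ 7 * Real.log (2 * m) * Real.log K :=
      hx2.trans (mul_le_mul_of_nonneg_left h1 (by positivity))
    have h3 : Real.log B.card ≤ Real.log (K ^ (10 ^ 7 * Real.log (2 * m) / ε) *
        (B.filter fun b => ∀ i, e i b = e i x).card) := by
      rw [Real.log_mul (Real.rpow_pos_of_pos hK0 _).ne' hB'.ne', Real.log_rpow hK0]
      have h4 : Real.log B.card - Real.log (B.filter fun b => ∀ i, e i b = e i x).card ≤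
          10 ^ 7 * Real.log (2 * m) / ε * Real.log K := by
        rw [div_mul_eq_mul_div, le_div_iff₀ hε]
        linarith
      linarith
    exact (Real.log_le_log_iff hM (mul_pos (Real.rpow_pos_of_pos hK0 _) hB')).1 h3
  · intro i a ha b hb
    rw [(mem_filter.1 ha).2 i, (mem_filter.1 hb).2 i]

/-- **Growth of the sum of two sets.** -/
theorem growth_sum {Γ : Type*} [AddCommGroup Γ] [d : DecidableEq Γ] {ι : Type*} {V : ι → Type*}
    [∀ i, AddCommGroup (V i)] (hV : ∀ i, TorsionFree (V i)) {B A : Finset Γ} (hB : B.Nonempty)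
    (hA : A.Nonempty) (e f : ∀ i, Γ → V i)
    (hef : ∀ i, ∀ b ∈ B, ∀ a ∈ A, ∀ b' ∈ B, ∀ a' ∈ A, b + a = b' + a' →
      e i b + f i a = e i b' + f i a') {m : ℕ} (hm : 1 ≤ m) {ε : ℝ} (hε : 0 < ε)
    (hf : ∀ i, Popular m ε A (f i))
    (hsep : ∀ a ∈ B, ∀ b ∈ B, (∀ i, e i a = e i b) → a = b) :
    (A.card : ℝ) ^ (1 / 2 : ℝ) * (B.card : ℝ) ^ (1 / 2 + ε / (10 ^ 7 * Real.log (2 * m))) ≤
      (B + A).card := by
  classical
  have hd : d = (fun a b => Classical.propDecidable (a = b)) := Subsingleton.elim _ _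
  subst hd
  have hN : (0 : ℝ) < A.card := by exact_mod_cast card_pos.2 hA
  have hM : (0 : ℝ) < B.card := by exact_mod_cast card_pos.2 hB
  have hBA : (0 : ℝ) < (B + A).card := by exact_mod_cast card_pos.2 (hB.add hA)
  have hL := log_two_m hm
  obtain ⟨x, hx, hx2⟩ := growth (fun i => (hV i).bot) hB hA e f hef hm hε (fun i => (hf i).filter)
  have h1 : B.filter (fun b => ∀ i, e i b = e i x) = {x} := by
    ext b
    rw [mem_filter, mem_singleton]
    refine ⟨fun h => hsep b h.1 x hx h.2, ?_⟩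
    intro h
    rw [h]
    exact ⟨hx, fun _ => rfl⟩
  rw [h1, card_singleton, Nat.cast_one, Real.log_one, sub_zero] at hx2
  rw [← Real.log_le_log_iff (by positivity) hBA, Real.log_mul (by positivity) (by positivity),
    Real.log_rpow hN, Real.log_rpow hM]
  have h2 : ε / (10 ^ 7 * Real.log (2 * m)) * Real.log B.card ≤
      Real.log (B + A).card - (Real.log B.card + Real.log A.card) / 2 := by
    rw [div_mul_eq_mul_div, div_le_iff₀ (by positivity)]
    linarith
  linarith

/-- **Growth of sums and differences.** -/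
theorem growth_self {Γ : Type*} [AddCommGroup Γ] [DecidableEq Γ] {ι : Type*} {V : ι → Type*}
    [∀ i, AddCommGroup (V i)] (hV : ∀ i, TorsionFree (V i)) {A : Finset Γ} (hA : A.Nonempty)
    (f : ∀ i, Γ → V i) (hfr : ∀ i, Freiman A (f i)) {m : ℕ} (hm : 1 ≤ m) {ε : ℝ} (hε : 0 < ε)
    (hf : ∀ i, Popular m ε A (f i))
    (hsep : ∀ a ∈ A, ∀ b ∈ A, (∀ i, f i a = f i b) → a = b) :
    (A.card : ℝ) ^ (1 + ε / (10 ^ 7 * Real.log (2 * m))) ≤ (A + A).card ∧
      (A.card : ℝ) ^ (1 + ε / (10 ^ 7 * Real.log (2 * m))) ≤ (A - A).card := by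
  have hN : (0 : ℝ) < A.card := by exact_mod_cast card_pos.2 hA
  have h0 : (A.card : ℝ) ^ (1 + ε / (10 ^ 7 * Real.log (2 * m))) = (A.card : ℝ) ^ (1 / 2 : ℝ) *
      (A.card : ℝ) ^ (1 / 2 + ε / (10 ^ 7 * Real.log (2 * m))) := by
    rw [← Real.rpow_add hN]
    congr 1
    ring
  constructor
  · rw [h0]
    exact growth_sum hV hA hA f f hfr hm hε hf hsep
  · have h1 := growth_sum hV (B := -A) (A := A) hA.neg hA (fun i x => -f i (-x)) f (by
      intro i b hb a ha b' hb' a' ha' hab
      rw [mem_neg'] at hb hb'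
      have h2 := hfr i a ha (-b') hb' a' ha' (-b) hb (by
        have : a + -b' = (b + a) - b - b' := by abel
        rw [this, hab]
        abel)
      have h3 : -f i (-b) + f i a = (f i a + f i (-b')) - f i (-b) - f i (-b') := by abel
      rw [h3, h2]
      abel) hm hε hf (by
      intro a ha b hb hab
      rw [mem_neg'] at ha hb
      have h2 := hsep (-a) ha (-b) hb (fun i => neg_injective (hab i))
      exact neg_injective h2)
    rw [card_neg, ← h0] at h1
    have h2 : -A + A = A - A := by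
      rw [add_comm, ← sub_eq_add_neg]
    rw [h2] at h1
    exact h1

/-- the exponents of the primes -/
def ex (a : ℕ) : ℕ → ℤ := fun p => (a.factorization p : ℤ)

lemma ex_mul {a b : ℕ} (ha : a ≠ 0) (hb : b ≠ 0) : ex (a * b) = ex a + ex b := by
  funext p
  unfold ex
  rw [Nat.factorization_mul ha hb]
  simp

lemma ex_inj {a b : ℕ} (ha : a ≠ 0) (hb : b ≠ 0) (h : ex a = ex b) : a = b := by
  refine Nat.eq_of_factorization_eq ha hb fun p => ?_
  have := congrFun h p
  unfold ex at this
  exact_mod_cast this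

lemma tf_int : TorsionFree ℤ := by
  intro n x hn hx
  rw [nsmul_eq_mul, mul_eq_zero] at hx
  rcases hx with h | h
  · exact absurd (by exact_mod_cast h) hn
  · exact h

/-- **Growth of products.** -/
theorem growth_prod {B A : Finset ℕ} (hB : B.Nonempty) (hA : A.Nonempty) (hB0 : 0 ∉ B)
    (hA0 : 0 ∉ A) {m : ℕ} (hm : 1 ≤ m) {ε : ℝ} (hε : 0 < ε) (hε1 : ε ≤ 1)
    (hf : ∀ p : ℕ, p.Prime → Popular m ε A (fun a => padicValNat p a)) :
    (A.card : ℝ) ^ (1 / 2 : ℝ) * (B.card : ℝ) ^ (1 / 2 + ε / (10 ^ 7 * Real.log (2 * m))) ≤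
      (B * A).card := by
  classical
  have hiA : Set.InjOn ex A := fun a ha b hb h =>
    ex_inj (fun h => hA0 (h ▸ ha)) (fun h => hA0 (h ▸ hb)) h
  have hiB : Set.InjOn ex B := fun a ha b hb h =>
    ex_inj (fun h => hB0 (h ▸ ha)) (fun h => hB0 (h ▸ hb)) h
  have hBA : (B.image ex + A.image ex).card ≤ (B * A).card := by
    have h1 : B.image ex + A.image ex ⊆ (B * A).image ex := by
      intro x hx
      obtain ⟨y, hy, z, hz, rfl⟩ := mem_add.1 hx
      obtain ⟨b, hb, rfl⟩ := mem_image.1 hy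
      obtain ⟨a, ha, rfl⟩ := mem_image.1 hz
      refine mem_image.2 ⟨b * a, mul_mem_mul hb ha, ?_⟩
      exact ex_mul (fun h => hB0 (h ▸ hb)) (fun h => hA0 (h ▸ ha))
    exact (card_le_card h1).trans card_image_le
  have h1 := growth_sum (ι := ℕ) (V := fun _ => ℤ) (fun _ => tf_int) (B := B.image ex)
    (A := A.image ex) (hB.image _) (hA.image _) (fun p x => x p) (fun p x => x p) (by
      intro p b _ a _ b' _ a' _ h
      exact congrFun h p) hm hε (by
      intro p
      by_cases hp : p.Prime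
      · obtain ⟨R, hR, hAR⟩ := hf p hp
        refine ⟨R.image (fun n : ℕ => (n : ℤ)), card_image_le.trans hR, ?_⟩
        rw [card_image_of_injOn hiA]
        refine hAR.trans ?_
        rw [ncard_filter, ncard_filter]
        have h2 : ((A.filter fun a => padicValNat p a ∈ R).image ex) ⊆
            (A.image ex).filter fun x => x p ∈ R.image (fun n : ℕ => (n : ℤ)) := by
          intro x hx
          obtain ⟨a, ha, rfl⟩ := mem_image.1 hx
          rw [mem_filter] at ha
          refine mem_filter.2 ⟨mem_image_of_mem _ ha.1, mem_image.2 ⟨padicValNat p a, ha.2, ?_⟩⟩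
          unfold ex
          rw [Nat.factorization_def a hp]
        have h3 := card_le_card h2
        rw [card_image_of_injOn (hiA.mono (by
          intro a ha
          exact mem_coe.2 (mem_filter.1 (mem_coe.1 ha)).1))] at h3
        exact_mod_cast h3
      · refine ⟨{0}, by simpa using hm, ?_⟩
        rw [ncard_filter]
        have h2 : (A.image ex).filter (fun x => x p ∈ ({0} : Finset ℤ)) = A.image ex := by
          refine filter_true_of_mem fun x hx => ?_
          obtain ⟨a, _, rfl⟩ := mem_image.1 hx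
          rw [mem_singleton]
          unfold ex
          rw [Nat.factorization_eq_zero_of_not_prime a hp, Nat.cast_zero]
        rw [h2]
        exact mul_le_of_le_one_left (Nat.cast_nonneg _) hε1) (by
      intro a _ b _ h
      exact funext h)
  rw [card_image_of_injOn hiA, card_image_of_injOn hiB] at h1
  exact h1.trans (by exact_mod_cast hBA)

end Pool.Agent.Run7.h127.TF
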