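import Pool.Agent.Run7.h127.TF.Multi

/-!
# Large subsets without popular values
-/

set_option autoImplicit false
set_option linter.unusedSectionVars false

namespace Pool.Agent.Run7.h127.TF

open Finset
open Pool.Agent.Run7.h127.PS (sum_log_cl h_id Phi Phi_ge sum_Phi const_of_h_eq_zero)
open Pool.Agent.Y359.PE (h fc cl mem_cl fc_posR fc_pos fc_le fc_congr h_nonneg cell_left cell_right
  cell_main nz h_congr h_const h_le_log submod chain avg_cl cl_prod mk mk_eq_iff h_mk_insert mk_add)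
open scoped Pointwise

universe u v

section

variable {Γ : Type*} [AddCommGroup Γ]

open Classical in
/-- **The minimisers have no popular values.** -/
theorem robust {B₁ A₁ : Finset Γ} (hB₁ : B₁.Nonempty) (hA₁ : A₁.Nonempty) {m : ℕ} (hm : 1 ≤ m)
    {ε l : ℝ} (hle : 10 ^ 7 * Real.log (2 * m) * l < ε) :
    ∃ B ⊆ B₁, ∃ A ⊆ A₁, B.Nonempty ∧ A.Nonempty ∧ Phi l B A ≤ Phi l B₁ A₁ ∧
      ∀ (V : Type v) [AddCommGroup V], (∀ K : AddSubgroup V, Finite K → K = ⊥) → ∀ g : Γ → V,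
        (∀ a ∈ B₁, ∀ b ∈ A₁, ∀ c ∈ B₁, ∀ d ∈ A₁, a + b = c + d → g a + g b = g c + g d) →
        (∃ R : Finset V, R.card ≤ m ∧ ε * A.card ≤ (A.filter fun a => g a ∈ R).card) →
        ∀ a ∈ A, ∀ b ∈ A, g a = g b := by
  obtain ⟨p, hp, hmin⟩ := ((B₁.powerset ×ˢ A₁.powerset).filter
    (fun p => p.1.Nonempty ∧ p.2.Nonempty)).exists_min_image (fun p => Phi l p.1 p.2)
    ⟨(B₁, A₁), mem_filter.2 ⟨mem_product.2 ⟨mem_powerset_self _, mem_powerset_self _⟩,
      hB₁, hA₁⟩⟩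
  obtain ⟨B, A⟩ := p
  rw [mem_filter, mem_product, mem_powerset, mem_powerset] at hp
  obtain ⟨⟨hBB, hAA⟩, hB, hA⟩ := hp
  simp only at hBB hAA hB hA hmin
  refine ⟨B, hBB, A, hAA, hB, hA, ?_, ?_⟩
  · exact hmin (B₁, A₁) (mem_filter.2 ⟨mem_product.2 ⟨mem_powerset_self _,
      mem_powerset_self _⟩, hB₁, hA₁⟩)
  · rintro V _ hV g hg ⟨R, hR, hRm⟩ a ha b hb
    have hN : (0 : ℝ) < A.card := by exact_mod_cast card_pos.2 hA
    have hM : (0 : ℝ) < B.card := by exact_mod_cast card_pos.2 hB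
    have hps := pair hV hB hA g g R hm hR
    have hsum := sum_Phi l hB hA g (fun a ha b hb c hc d hd h =>
      hg a (hBB ha) b (hAA hb) c (hBB hc) d (hAA hd) h)
    have hlow : B.card * A.card * Phi l B A ≤
        ∑ u ∈ B, ∑ v ∈ A, Phi l (cl B g u) (cl A g v) := by
      have e1 : (B.card : ℝ) * A.card * Phi l B A = ∑ u ∈ B, ∑ v ∈ A, Phi l B A := by
        rw [sum_const, sum_const, nsmul_eq_mul, nsmul_eq_mul, mul_assoc]
      rw [e1]
      refine sum_le_sum fun u hu => sum_le_sum fun v hv => ?_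
      refine hmin (cl B g u, cl A g v) (mem_filter.2 ⟨mem_product.2 ⟨mem_powerset.2 ?_,
        mem_powerset.2 ?_⟩, ⟨u, mem_cl.2 ⟨hu, rfl⟩⟩, ⟨v, mem_cl.2 ⟨hv, rfl⟩⟩⟩)
      · exact fun y hy => hBB (mem_cl.1 hy).1
      · exact fun y hy => hAA (mem_cl.1 hy).1
    have h1 := le_of_mul_le_mul_left (hlow.trans hsum) (by positivity)
    have hX0 := h_nonneg A g
    have hY0 := h_nonneg B g
    obtain ⟨D, hD⟩ : ∃ D, D = h (B ×ˢ A) (fun s => g s.1 + g s.2) - (h B g + h A g) / 2 :=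
      ⟨_, rfl⟩
    rw [← hD] at hps
    have h2 : D ≤ l * (h B g + h A g) := by linarith
    have hL := log_two_m hm
    have h3 : ε * (h B g + h A g) ≤ 10 ^ 7 * Real.log (2 * m) * D := by
      refine le_trans ?_ hps
      refine mul_le_mul_of_nonneg_right ?_ (by linarith)
      rw [le_div_iff₀ hN]
      exact hRm
    have h4 : 10 ^ 7 * Real.log (2 * m) * D ≤ 10 ^ 7 * Real.log (2 * m) * (l * (h B g + h A g)) :=
      mul_le_mul_of_nonneg_left h2 (by positivity)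
    have h5 : h B g + h A g ≤ 0 := by
      by_contra hcon
      push Not at hcon
      have := mul_lt_mul_of_pos_right hle hcon
      linarith
    exact const_of_h_eq_zero (z := g) (by linarith : h A g ≤ 0) ha hb

open Classical in
/-- **Popular values.** -/
theorem main {ι : Type*} {V : ι → Type*} [∀ i, AddCommGroup (V i)]
    (hV : ∀ i, ∀ K : AddSubgroup (V i), Finite K → K = ⊥) {A : Finset Γ} (hA : A.Nonempty)
    {K : ℝ} (hK : ((A + A).card : ℝ) ≤ K * A.card) {m : ℕ} (hm : 1 ≤ m) {ε : ℝ} (hε : 0 < ε)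
    (f : ∀ i, Γ → V i)
    (hf : ∀ i, ∀ a ∈ A, ∀ b ∈ A, ∀ c ∈ A, ∀ d ∈ A, a + b = c + d → f i a + f i b = f i c + f i d)
    (hF : ∀ i, ∃ B : Finset (V i), B.card ≤ m ∧
      ε * A.card ≤ (A.filter fun a => f i a ∈ B).card) :
    ∃ A' ⊆ A, A'.Nonempty ∧
      (A.card : ℝ) ≤ K ^ (2 * 10 ^ 7 * Real.log (2 * m) / ε) * A'.card ∧
      (∀ i, ∀ a ∈ A', ∀ b ∈ A', f i a = f i b) ∧
      ∀ (V : Type v) [AddCommGroup V], (∀ K : AddSubgroup V, Finite K → K = ⊥) → ∀ g : Γ → V,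
        (∀ a ∈ A, ∀ b ∈ A, ∀ c ∈ A, ∀ d ∈ A, a + b = c + d → g a + g b = g c + g d) →
        (∃ R : Finset V, R.card ≤ m ∧ ε * A'.card ≤ (A'.filter fun a => g a ∈ R).card) →
        ∀ a ∈ A', ∀ b ∈ A', g a = g b := by
  have hN : (0 : ℝ) < A.card := by exact_mod_cast card_pos.2 hA
  have hAA : (A.card : ℝ) ≤ (A + A).card := by
    exact_mod_cast card_le_card_add_right hA
  have hK1 : 1 ≤ K := by nlinarith
  obtain ⟨L, hL⟩ : ∃ L : ℝ, Real.log (2 * m) = L := ⟨_, rfl⟩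
  have hL69 : 69 / 100 ≤ L := hL ▸ log_two_m hm
  obtain ⟨l, hl⟩ : ∃ l : ℝ, l = ε / (2 * 10 ^ 7 * L) := ⟨_, rfl⟩
  have hl0 : 0 < l := by
    rw [hl]
    positivity
  have hle : 10 ^ 7 * Real.log (2 * m) * l < ε := by
    rw [hl, hL]
    have h1 : 10 ^ 7 * L * (ε / (2 * 10 ^ 7 * L)) = ε / 2 := by
      field_simp
    rw [h1]
    linarith
  -- the first step: a pair of fibres
  obtain ⟨B₁, A₁, hB₁, hA₁, hBA, hAA₁, hPhi, hconst⟩ : ∃ B₁ A₁ : Finset Γ, B₁.Nonempty ∧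
      A₁.Nonempty ∧ B₁ ⊆ A ∧ A₁ ⊆ A ∧ Phi l B₁ A₁ ≤ Phi l A A ∧
      ∀ i, ∀ a ∈ A₁, ∀ b ∈ A₁, f i a = f i b := by
    obtain ⟨T, hT⟩ := exists_sep A f
    obtain ⟨z, hz⟩ : ∃ z, z = mk T (W f) := ⟨_, rfl⟩
    have hX := multi hV hA hA f f hm T (fun i _ => hF i)
    have hzf : ∀ a ∈ A, ∀ b ∈ A, ∀ c ∈ A, ∀ d ∈ A, a + b = c + d → z a + z b = z c + z d := by
      intro a ha b hb c hc d hd habcd
      rw [hz]
      show mk T (W f) (a, b).1 + mk T (W f) (a, b).2 = mk T (W f) (c, d).1 + mk T (W f) (c, d).2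
      rw [← mk_add, ← mk_add, mk_eq_iff]
      intro i _
      simp only [Pi.add_apply]
      exact W_add_eq_iff.2 (hf i a ha b hb c hc d hd habcd)
    have hsep := hT T (Subset.refl _)
    rw [← hz, hL] at hX
    rw [← hz] at hsep
    have hsum := sum_Phi l hA hA z hzf
    obtain ⟨S, hS⟩ : ∃ S, S = h (A ×ˢ A) (fun s => z s.1 + z s.2) := ⟨_, rfl⟩
    rw [← hS] at hX hsum
    have h1 : 2 * l * h A z ≤ S - h A z := by
      have h2 : ε * h A z ≤ 10 ^ 7 * L * (S - h A z) := by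
        refine hX.trans (le_of_eq ?_)
        ring
      have h3 : 2 * l * h A z = ε * h A z / (10 ^ 7 * L) := by
        rw [hl]
        field_simp
      rw [h3, div_le_iff₀ (by positivity)]
      linarith
    obtain ⟨u, hu, v, hv, huv⟩ : ∃ u ∈ A, ∃ v ∈ A, Phi l (cl A z u) (cl A z v) ≤ Phi l A A := by
      by_contra hcon
      push Not at hcon
      have h2 : ∑ u ∈ A, ∑ v ∈ A, Phi l A A < ∑ u ∈ A, ∑ v ∈ A, Phi l (cl A z u) (cl A z v) :=
        sum_lt_sum_of_nonempty hA fun u hu => sum_lt_sum_of_nonempty hA fun v hv => hcon u hu v hv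
      rw [sum_const, sum_const, nsmul_eq_mul, nsmul_eq_mul, ← mul_assoc] at h2
      have h3 := lt_of_mul_lt_mul_left (h2.trans_le hsum) (by positivity)
      linarith
    refine ⟨cl A z u, cl A z v, ⟨u, mem_cl.2 ⟨hu, rfl⟩⟩, ⟨v, mem_cl.2 ⟨hv, rfl⟩⟩,
      fun y hy => (mem_cl.1 hy).1, fun y hy => (mem_cl.1 hy).1, huv, ?_⟩
    intro i a ha b hb
    rw [mem_cl] at ha hb
    exact hsep a ha.1 b hb.1 (ha.2.trans hb.2.symm) i
  obtain ⟨B, hBB, A', hA'A, hB, hA', hPhi', hrob⟩ := robust.{v} hB₁ hA₁ hm hle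
  refine ⟨A', hA'A.trans hAA₁, hA', ?_, ?_, ?_⟩
  · have h1 := Phi_ge (l := l) hB hA'
    have h2 : Phi l A A ≤ Real.log K - 2 * l * Real.log A.card := by
      have h3 : h (A ×ˢ A) (fun s : Γ × Γ => s.1 + s.2) ≤ Real.log (A + A).card :=
        h_le_log (hA.product hA) _
      have h4 : Real.log (A + A).card ≤ Real.log K + Real.log A.card := by
        rw [← Real.log_mul (by linarith) hN.ne']
        exact Real.log_le_log (by linarith) hK
      unfold Phi
      linarith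
    have h3 : Real.log B.card ≤ Real.log A.card :=
      Real.log_le_log (by exact_mod_cast card_pos.2 hB)
        (by exact_mod_cast card_le_card (hBB.trans hBA))
    have hA'0 : (0 : ℝ) < A'.card := by exact_mod_cast card_pos.2 hA'
    have h4 : l * (Real.log A.card - Real.log A'.card) ≤ Real.log K := by
      have h5 := mul_le_mul_of_nonneg_left h3 hl0.le
      linarith
    have h5 : Real.log A.card - Real.log A'.card ≤
        2 * 10 ^ 7 * L / ε * Real.log K := by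
      have h6 : 2 * 10 ^ 7 * L / ε = 1 / l := by
        rw [hl]
        field_simp
      rw [h6, div_mul_eq_mul_div, one_mul, le_div_iff₀ hl0]
      linarith
    have h7 : Real.log A.card ≤
        Real.log (K ^ (2 * 10 ^ 7 * Real.log (2 * m) / ε) * A'.card) := by
      rw [Real.log_mul (Real.rpow_pos_of_pos (by linarith) _).ne' hA'0.ne',
        Real.log_rpow (by linarith), hL]
      linarith
    exact (Real.log_le_log_iff hN (mul_pos (Real.rpow_pos_of_pos (by linarith) _) hA'0)).1 h7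
  · intro i a ha b hb
    exact hconst i a (hA'A ha) b (hA'A hb)
  · intro V _ hV' g hg hR
    exact hrob V hV' g (fun a ha b hb c hc d hd h =>
      hg a (hBA ha) b (hAA₁ hb) c (hBA hc) d (hAA₁ hd) h) hR

end

end Pool.Agent.Run7.h127.TF
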