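import Pool.Agent.Run7.h127.TF.Base

/-!
# Many coordinates with popular values in groups without finite subgroups
-/

set_option autoImplicit false
set_option linter.unusedSectionVars false

namespace Pool.Agent.Run7.h127.TF

open Finset
open Pool.Agent.Run7.h127.PS (sum_log_cl h_id)
open Pool.Agent.Y359.PE (h fc cl mem_cl fc_posR fc_pos fc_le fc_congr h_nonneg cell_left cell_right
  cell_main nz h_congr h_const h_le_log submod chain avg_cl cl_prod mk mk_eq_iff h_mk_insert mk_add)
open scoped Pointwise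

variable {α β : Type*} {ι : Type*} {V : ι → Type*} [∀ i, AddCommGroup (V i)]

/-- the coordinate `i` -/
noncomputable def W (f : ∀ i, α → V i) (a : α) (i : ι) : ∀ j, V j :=
  open Classical in Pi.single i (f i a)

lemma W_eq_iff {f : ∀ i, α → V i} {a b : α} {i : ι} : W f a i = W f b i ↔ f i a = f i b := by
  classical
  unfold W
  rw [(Pi.single_injective i).eq_iff]

lemma W_add_eq_iff {e : ∀ i, β → V i} {f : ∀ i, α → V i} {b b' : β} {a a' : α} {i : ι} :
    W e b i + W f a i = W e b' i + W f a' i ↔ e i b + f i a = e i b' + f i a' := by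
  classical
  unfold W
  rw [← Pi.single_add, ← Pi.single_add, (Pi.single_injective i).eq_iff]

open Classical in
/-- **Many coordinates.** -/
theorem multi (hV : ∀ i, ∀ K : AddSubgroup (V i), Finite K → K = ⊥) {B : Finset β} {A : Finset α}
    (hB : B.Nonempty) (hA : A.Nonempty) (e : ∀ i, β → V i) (f : ∀ i, α → V i) {m : ℕ} (hm : 1 ≤ m)
    {ε : ℝ} (T : Finset ι)
    (hT : ∀ i ∈ T, ∃ B₀ : Finset (V i), B₀.card ≤ m ∧
      ε * A.card ≤ (A.filter fun a => f i a ∈ B₀).card) :
    ε * h B (mk T (W e)) ≤ 10 ^ 7 * Real.log (2 * m) *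
      (h (B ×ˢ A) (fun s => mk T (W e) s.1 + mk T (W f) s.2) -
        (h B (mk T (W e)) + h A (mk T (W f))) / 2) := by
  have hL := log_two_m hm
  induction T using Finset.induction_on with
  | empty =>
    have e1 : h B (mk ∅ (W e)) = 0 := by
      refine h_const _ _ fun x _ y _ => ?_
      rw [mk_eq_iff]
      intro p hp
      exact absurd hp (notMem_empty _)
    have e2 : h A (mk ∅ (W f)) = 0 := by
      refine h_const _ _ fun x _ y _ => ?_
      rw [mk_eq_iff]
      intro p hp
      exact absurd hp (notMem_empty _)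
    rw [e1, e2, mul_zero, add_zero, zero_div, sub_zero]
    exact mul_nonneg (by positivity) (h_nonneg _ _)
  | insert i T hp ih =>
    have ih' := ih (fun q hq => hT q (mem_insert_of_mem hq))
    obtain ⟨B₀, hB₀, hBm⟩ := hT i (mem_insert_self _ _)
    have st := step (hV i) hB hA (mk T (W e)) (mk T (W f)) (e i) (f i) B₀ hm hB₀ hBm
    have e0 : h B (mk (insert i T) (W e)) = h B (fun u => (mk T (W e) u, e i u)) := by
      rw [h_mk_insert]
      refine h_congr fun a _ b _ => ?_
      rw [Prod.mk.injEq, Prod.mk.injEq, W_eq_iff]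
    have e1 : h A (mk (insert i T) (W f)) = h A (fun u => (mk T (W f) u, f i u)) := by
      rw [h_mk_insert]
      refine h_congr fun a _ b _ => ?_
      rw [Prod.mk.injEq, Prod.mk.injEq, W_eq_iff]
    have e2 : h (B ×ˢ A) (fun s => mk (insert i T) (W e) s.1 + mk (insert i T) (W f) s.2) =
        h (B ×ˢ A) (fun s => (mk T (W e) s.1 + mk T (W f) s.2, e i s.1 + f i s.2)) := by
      refine h_congr fun s _ t _ => ?_
      rw [Prod.mk.injEq, ← mk_add, ← mk_add, ← mk_add, ← mk_add, mk_eq_iff, mk_eq_iff]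
      constructor
      · intro h1
        refine ⟨fun q hq => h1 q (mem_insert_of_mem hq), ?_⟩
        have h2 := h1 i (mem_insert_self _ _)
        simp only [Pi.add_apply] at h2
        exact W_add_eq_iff.1 h2
      · rintro ⟨h1, h2⟩ q hq
        rcases mem_insert.1 hq with rfl | h3
        · simp only [Pi.add_apply]
          exact W_add_eq_iff.2 h2
        · exact h1 q h3
    rw [e0, e1, e2]
    have h3 : ∀ c a a' b b' d d' : ℝ, ε * (a - a') ≤ c * (d - d' - ((a - a') + (b - b')) / 2) →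
        ε * a' ≤ c * (d' - (a' + b') / 2) → ε * a ≤ c * (d - (a + b) / 2) := by
      intro c a a' b b' d d' h4 h5
      have h6 : ε * a = ε * (a - a') + ε * a' := by ring
      have h7 : c * (d - (a + b) / 2) = c * (d - d' - ((a - a') + (b - b')) / 2) +
          c * (d' - (a' + b') / 2) := by ring
      linarith
    exact h3 _ _ _ _ _ _ _ st ih'

/-- finitely many coordinates separate the elements -/
lemma exists_sep (B : Finset β) (e : ∀ i, β → V i) :
    ∃ T : Finset ι, ∀ T' : Finset ι, T ⊆ T' → ∀ b ∈ B, ∀ b' ∈ B,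
      mk T' (W e) b = mk T' (W e) b' → ∀ i, e i b = e i b' := by
  classical
  rcases isEmpty_or_nonempty ι with hι | ⟨⟨i₀⟩⟩
  · exact ⟨∅, fun _ _ _ _ _ _ _ i => hι.elim i⟩
  have hsep : ∀ s : β × β, ∃ i, (∃ j, e j s.1 ≠ e j s.2) → e i s.1 ≠ e i s.2 := by
    intro s
    by_cases hs : ∃ j, e j s.1 ≠ e j s.2
    · obtain ⟨j, hj⟩ := hs
      exact ⟨j, fun _ => hj⟩
    · exact ⟨i₀, fun h => absurd h hs⟩
  choose I hI using hsep
  refine ⟨(B ×ˢ B).image I, ?_⟩
  intro T' hT' b hb b' hb' hbb i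
  by_contra hcon
  refine hI (b, b') ⟨i, hcon⟩ ?_
  rw [mk_eq_iff] at hbb
  exact W_eq_iff.1 (hbb _ (hT' (mem_image_of_mem _ (mem_product.2 ⟨hb, hb'⟩))))

section

variable {Γ M : Type*} [AddCommGroup Γ] [AddCommGroup M]

open Classical in
/-- the entropies of the sums of the classes, for two functions -/
lemma fibring₂ {B A : Finset Γ} (hB : B.Nonempty) (hA : A.Nonempty) (z z' : Γ → M)
    (hz : ∀ b ∈ B, ∀ a ∈ A, ∀ b' ∈ B, ∀ a' ∈ A, b + a = b' + a' → z b + z' a = z b' + z' a') :
    ∑ u ∈ B, ∑ v ∈ A, h (cl B z u ×ˢ cl A z' v) (fun s => s.1 + s.2) ≤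
      B.card * A.card * (h (B ×ˢ A) (fun s => s.1 + s.2) -
        h (B ×ˢ A) (fun s => z s.1 + z' s.2)) := by
  have hN : (0 : ℝ) < A.card := by exact_mod_cast card_pos.2 hA
  have hM : (0 : ℝ) < B.card := by exact_mod_cast card_pos.2 hB
  have h1 := submod (B ×ˢ A) (fun s => z s.1 + z' s.2) (fun s => (z s.1, z' s.2))
    (fun s => s.1 + s.2) (by
      intro s _ t _ hst
      rw [Prod.mk.injEq] at hst
      show z s.1 + z' s.2 = z t.1 + z' t.2
      rw [hst.1, hst.2])
  rw [chain (B ×ˢ A) (fun s => (z s.1, z' s.2)) (fun s => s.1 + s.2), card_product,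
    sum_product] at h1
  have e1 : h (B ×ˢ A) (fun x => (z x.1 + z' x.2, x.1 + x.2)) =
      h (B ×ˢ A) (fun x => x.1 + x.2) := by
    refine h_congr fun s hs t ht => ?_
    rw [mem_product] at hs ht
    rw [Prod.mk.injEq]
    refine ⟨fun h5 => h5.2, fun h5 => ⟨?_, h5⟩⟩
    exact hz _ hs.1 _ hs.2 _ ht.1 _ ht.2 h5
  rw [e1, div_le_iff₀ (by push_cast; positivity)] at h1
  push_cast at h1
  have e2 : ∑ u ∈ B, ∑ v ∈ A, h (cl B z u ×ˢ cl A z' v) (fun s => s.1 + s.2) =
      ∑ u ∈ B, ∑ v ∈ A, h (cl (B ×ˢ A) (fun s => (z s.1, z' s.2)) (u, v))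
        (fun s => s.1 + s.2) := by
    refine sum_congr rfl fun u _ => sum_congr rfl fun v _ => ?_
    rw [cl_prod]
  rw [e2]
  linarith

open Classical in
/-- the increment of the entropy is at most the logarithm of the growth -/
theorem incr₂ {B A : Finset Γ} (hB : B.Nonempty) (hA : A.Nonempty) (z z' : Γ → M)
    (hz : ∀ b ∈ B, ∀ a ∈ A, ∀ b' ∈ B, ∀ a' ∈ A, b + a = b' + a' → z b + z' a = z b' + z' a') :
    h (B ×ˢ A) (fun s => z s.1 + z' s.2) - (h B z + h A z') / 2 ≤
      Real.log (B + A).card - (Real.log B.card + Real.log A.card) / 2 := by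
  have hN : (0 : ℝ) < A.card := by exact_mod_cast card_pos.2 hA
  have hM : (0 : ℝ) < B.card := by exact_mod_cast card_pos.2 hB
  have h1 := fibring₂ hB hA z z' hz
  have h2 : h (B ×ˢ A) (fun s => s.1 + s.2) ≤ Real.log (B + A).card := h_le_log (hB.product hA) _
  have h3 : ∑ u ∈ B, ∑ v ∈ A, (Real.log (cl B z u).card + Real.log (cl A z' v).card) / 2 ≤
      ∑ u ∈ B, ∑ v ∈ A, h (cl B z u ×ˢ cl A z' v) (fun s => s.1 + s.2) := by
    refine sum_le_sum fun u hu => sum_le_sum fun v hv => ?_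
    have hu' : (cl B z u).Nonempty := ⟨u, mem_cl.2 ⟨hu, rfl⟩⟩
    have hv' : (cl A z' v).Nonempty := ⟨v, mem_cl.2 ⟨hv, rfl⟩⟩
    have h4 := cell_left (cl B z u) (cl A z' v) hv' (fun x => x) (fun x => x)
    have h5 := cell_right (cl B z u) (cl A z' v) hu' (fun x => x) (fun x => x)
    rw [h_id hu'] at h4
    rw [h_id hv'] at h5
    linarith
  have h4 : ∑ u ∈ B, ∑ v ∈ A, (Real.log (cl B z u).card + Real.log (cl A z' v).card) / 2 =
      B.card * A.card * ((Real.log B.card - h B z) + (Real.log A.card - h A z')) / 2 := by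
    have e1 : ∀ u ∈ B, ∑ v ∈ A, (Real.log (cl B z u).card + Real.log (cl A z' v).card) / 2 =
        (A.card * Real.log (cl B z u).card + A.card * (Real.log A.card - h A z')) / 2 := by
      intro u _
      rw [← sum_div, sum_add_distrib, sum_const, nsmul_eq_mul, sum_log_cl hA]
    rw [sum_congr rfl e1, ← sum_div, sum_add_distrib, sum_const, nsmul_eq_mul, ← mul_sum,
      sum_log_cl hB]
    ring
  rw [h4] at h3
  have h5 := h3.trans h1
  have h6 : (B.card : ℝ) * A.card * (((Real.log B.card - h B z) +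
      (Real.log A.card - h A z')) / 2) ≤ B.card * A.card * (h (B ×ˢ A) (fun s => s.1 + s.2) -
        h (B ×ˢ A) (fun s => z s.1 + z' s.2)) := by
    rw [← mul_div_assoc]
    exact h5
  have h7 := le_of_mul_le_mul_left h6 (by positivity)
  linarith

open Classical in
/-- a popular class -/
lemma popular_class {B : Finset β} (hB : B.Nonempty) {γ : Type*} (z : β → γ) :
    ∃ x ∈ B, Real.log B.card - h B z ≤ Real.log (cl B z x).card := by
  have hN : (0 : ℝ) < B.card := by exact_mod_cast card_pos.2 hB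
  by_contra hcon
  push Not at hcon
  have h4 := sum_lt_sum_of_nonempty hB hcon
  rw [sum_log_cl hB, sum_const, nsmul_eq_mul] at h4
  exact lt_irrefl _ h4

open Classical in
/-- **The growth.** -/
theorem growth (hV : ∀ i, ∀ K : AddSubgroup (V i), Finite K → K = ⊥) {B A : Finset Γ}
    (hB : B.Nonempty) (hA : A.Nonempty) (e f : ∀ i, Γ → V i)
    (hef : ∀ i, ∀ b ∈ B, ∀ a ∈ A, ∀ b' ∈ B, ∀ a' ∈ A, b + a = b' + a' →
      e i b + f i a = e i b' + f i a') {m : ℕ} (hm : 1 ≤ m) {ε : ℝ} (hε : 0 < ε)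
    (hf : ∀ i, ∃ B₀ : Finset (V i), B₀.card ≤ m ∧
      ε * A.card ≤ (A.filter fun a => f i a ∈ B₀).card) :
    ∃ x ∈ B, ε * (Real.log B.card - Real.log (B.filter fun b => ∀ i, e i b = e i x).card) ≤
      10 ^ 7 * Real.log (2 * m) *
        (Real.log (B + A).card - (Real.log B.card + Real.log A.card) / 2) := by
  obtain ⟨T, hT⟩ := exists_sep B e
  have h1 := multi hV hB hA e f hm T (fun i _ => hf i)
  have h2 := incr₂ hB hA (mk T (W e)) (mk T (W f)) (by
    intro b hb a ha b' hb' a' ha' hab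
    show mk T (W e) (b, a).1 + mk T (W f) (b, a).2 = mk T (W e) (b', a').1 + mk T (W f) (b', a').2
    rw [← mk_add, ← mk_add, mk_eq_iff]
    intro i _
    simp only [Pi.add_apply]
    exact W_add_eq_iff.2 (hef i b hb a ha b' hb' a' ha' hab))
  obtain ⟨x, hx, hx2⟩ := popular_class hB (mk T (W e))
  refine ⟨x, hx, ?_⟩
  have h3 : (cl B (mk T (W e)) x).card ≤ (B.filter fun b => ∀ i, e i b = e i x).card := by
    refine card_le_card fun y hy => ?_
    rw [mem_cl] at hy
    exact mem_filter.2 ⟨hy.1, hT T (Subset.refl _) y hy.1 x hx hy.2⟩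
  have h4 : (0 : ℝ) < (cl B (mk T (W e)) x).card := by
    exact_mod_cast card_pos.2 ⟨x, mem_cl.2 ⟨hx, rfl⟩⟩
  have h5 : Real.log (cl B (mk T (W e)) x).card ≤
      Real.log (B.filter fun b => ∀ i, e i b = e i x).card :=
    Real.log_le_log h4 (by exact_mod_cast h3)
  have hL := log_two_m hm
  have h6 : 10 ^ 7 * Real.log (2 * m) * (h (B ×ˢ A) (fun s => mk T (W e) s.1 + mk T (W f) s.2) -
      (h B (mk T (W e)) + h A (mk T (W f))) / 2) ≤ 10 ^ 7 * Real.log (2 * m) *
        (Real.log (B + A).card - (Real.log B.card + Real.log A.card) / 2) :=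
    mul_le_mul_of_nonneg_left h2 (by positivity)
  have h7 : ε * (Real.log B.card - Real.log (B.filter fun b => ∀ i, e i b = e i x).card) ≤
      ε * h B (mk T (W e)) := mul_le_mul_of_nonneg_left (by linarith) hε.le
  linarith

end

end Pool.Agent.Run7.h127.TF
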